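import Pool.Agent.Lib.MP_9c2350_lc.Main

/-!
A polynomial time algorithm which constructs, for every `m`-primitive family of nonnegative
rational matrices, a colour vector with a positive Hurwitz product.
-/

set_option autoImplicit false

namespace Pool.Agent.Results.MP_9c2350_lc.PolyTimeHurwitz

open Pool.Agent.Lib.MP_9c2350_lc

theorem result : ∃ f : List Sym → List Sym,
    Nonempty (Turing.TM2ComputableInPolyTime id id f) ∧
    ∀ (n m : ℕ) (A : Fin m → Matrix (Fin n) (Fin n) ℚ≥0), 0 < n → MPrimitive A →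
      ∃ α : Fin m → ℕ, f (encFamily A) = encVector α ∧ 1 ≤ ∑ i, α i ∧
        IsPositive (hurwitz A α) := by
  refine ⟨algo, tm_of_poly poly_algo, fun n m A hn hA => ?_⟩
  obtain ⟨α₀, hα₀, hpos⟩ := hA
  have hm : 0 < m := by
    rcases Nat.eq_zero_or_pos m with h | h
    · subst h; simp at hα₀
    · exact h
  have hw : ∀ i j, Wk (fun c a b => patOf A c a b = true) α₀ i j := by
    intro i j
    have := (hurwitz_pos_iff A α₀ i j).1 (hpos i j)
    simpa [patOf] using this
  refine ⟨_, algo_eq (patOf A) _ (parse_encFamily A), ?_, ?_⟩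
  · have hedge : ∃ c a b, patOf A c a b = true := by
      obtain ⟨x, hs, hc, _⟩ := flow_of_wk (hw ⟨0, hn⟩ ⟨0, hn⟩)
      rw [← hc] at hα₀
      obtain ⟨c, _, h0⟩ := Finset.exists_ne_zero_of_sum_ne_zero (show ∑ c, col x c ≠ 0 by omega)
      obtain ⟨a, _, h0⟩ := Finset.exists_ne_zero_of_sum_ne_zero h0
      obtain ⟨b, _, h0⟩ := Finset.exists_ne_zero_of_sum_ne_zero h0
      exact ⟨c, a, b, hs c a b h0⟩
    obtain ⟨c, a, b, hab⟩ := hedge
    obtain ⟨β, hβ, hβn⟩ := exists_short (fun a b => ⟨α₀, hw a b⟩) b a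
    have h1 := PM_pow_pos (patOf A) hβ n hβn
    have h2 : 1 ≤ ∑ a, ∑ b, (patOf A c a b).toNat * (PM (patOf A) ^ n) b a := by
      have e1 : (patOf A c a b).toNat * (PM (patOf A) ^ n) b a ≤
          ∑ b, (patOf A c a b).toNat * (PM (patOf A) ^ n) b a :=
        Finset.single_le_sum (f := fun b => (patOf A c a b).toNat * (PM (patOf A) ^ n) b a)
          (fun _ _ => Nat.zero_le _) (Finset.mem_univ b)
      have e2 : ∑ b, (patOf A c a b).toNat * (PM (patOf A) ^ n) b a ≤
          ∑ a, ∑ b, (patOf A c a b).toNat * (PM (patOf A) ^ n) b a :=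
        Finset.single_le_sum
          (f := fun a => ∑ b, (patOf A c a b).toNat * (PM (patOf A) ^ n) b a)
          (fun _ _ => Nat.zero_le _) (Finset.mem_univ a)
      have e3 : (patOf A c a b).toNat = 1 := by simp [hab]
      rw [e3, one_mul] at e1
      omega
    have h3 := Finset.single_le_sum
      (f := fun c => 2 ^ ((encFamily A).length * ((encFamily A).length * 10)) *
        ∑ a, ∑ b, (patOf A c a b).toNat * (PM (patOf A) ^ n) b a)
      (fun _ _ => Nat.zero_le _) (Finset.mem_univ c)
    have h4 : 1 ≤ 2 ^ ((encFamily A).length * ((encFamily A).length * 10)) *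
        ∑ a, ∑ b, (patOf A c a b).toNat * (PM (patOf A) ^ n) b a :=
      Nat.mul_pos (by positivity) h2
    exact h4.trans h3
  · intro i j
    rw [hurwitz_pos_iff]
    have := wk_output (patOf A) hn hm hw (encFamily A).length (encFamily_length A) i j
    simpa [patOf] using this

end Pool.Agent.Results.MP_9c2350_lc.PolyTimeHurwitz
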